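import Pool.Agent.Q137.AM.GV
import Pool.Agent.Q162.AM.NUM

/-! Project AM of helper17, job AMR. -/

set_option autoImplicit false

open scoped Classical

noncomputable section

namespace Pool.Agent.Q137.AM

open Pool.Agent.H254R3.IN hiding NN
open Pool.Agent.Q17.AM
open Pool.Agent.Q162.AM (ac mem_Fxd ac_nch ac_cch)

section trans

variable {H K : Type} [Group H] [Group K]

lemma irr0_tr (p : ℕ) (e : H ≃* K) (D : Subgroup K) (D' : Subgroup H)
    (hD : ∀ x, x ∈ D' ↔ e x ∈ D) (B : Set (H → ℂ)) (θ : K → ℂ) :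
    θ ∈ Irr0 p D {θ | (fun x => θ (e x)) ∈ B} ↔ (fun x => θ (e x)) ∈ Irr0 p D' B := by
  have h1 : D' = D.comap (e : H →* K) := by
    ext x
    rw [hD x, Subgroup.mem_comap]
    rfl
  have h2 : D'.index = D.index := by
    rw [h1]
    exact D.index_comap_of_surjective e.surjective
  unfold Irr0
  rw [h2]
  show (_ ∧ ∃ n : ℕ, (n : ℂ) = θ 1 ∧ _) ↔ (_ ∧ ∃ n : ℕ, (n : ℂ) = θ (e 1) ∧ _)
  rw [map_one]
  rfl

lemma fxd_tr (p : ℕ) (e : H ≃* K) (D : Subgroup K) (D' : Subgroup H)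
    (hD : ∀ x, x ∈ D' ↔ e x ∈ D) (B : Set (H → ℂ)) (s : ℂ ≃+* ℂ) :
    (Fxd (Irr0 p D {θ | (fun x => θ (e x)) ∈ B}) s).ncard = (Fxd (Irr0 p D' B) s).ncard := by
  rw [← Set.ncard_image_of_injective (f := fun (θ : K → ℂ) (x : H) => θ (e x))
    (Fxd (Irr0 p D {θ | (fun x => θ (e x)) ∈ B}) s)]
  · congr 1
    ext χ
    constructor
    · rintro ⟨θ, ⟨h1, h2⟩, rfl⟩
      exact ⟨(irr0_tr p e D D' hD B θ).1 h1, fun g => h2 (e g)⟩
    · rintro ⟨h1, h2⟩
      have h3 : (fun x => (fun y => χ (e.symm y)) (e x)) = χ := by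
        funext x
        show χ (e.symm (e x)) = χ x
        rw [e.symm_apply_apply]
      refine ⟨fun y => χ (e.symm y), ⟨(irr0_tr p e D D' hD B _).2 ?_, fun g => h2 _⟩, h3⟩
      rw [h3]
      exact h1
  · intro θ θ' h
    funext y
    have := congrFun h (e.symm y)
    simpa using this

end trans

lemma st_pow {H : Type} {s : ℂ ≃+* ℂ} {B : Set (H → ℂ)} (h : St s B) (k : ℕ) : St (s ^ k) B := by
  induction k with
  | zero =>
      intro χ
      have : (fun g => (s ^ 0) (χ g)) = χ := by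
        funext g; rw [pow_zero]; rfl
      rw [this]
  | succ k ih =>
      intro χ
      have : (fun g => (s ^ (k + 1)) (χ g)) = fun g => s ((fun g => (s ^ k) (χ g)) g) := by
        funext g; rw [pow_succ']; rfl
      rw [this, ← h, ← ih]

lemma irr0_st {H : Type} [Group H] {s : ℂ ≃+* ℂ} {B : Set (H → ℂ)} (h : St s B) (p : ℕ)
    (D : Subgroup H) : St s (Irr0 p D B) := by
  intro χ
  have h1 : ∀ n : ℕ, (n : ℂ) = χ 1 ↔ (n : ℂ) = s (χ 1) := by
    intro n
    constructor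
    · intro hn; rw [← hn, map_natCast]
    · intro hn
      apply s.injective
      rw [map_natCast, hn]
  constructor
  · rintro ⟨h2, n, hn, hn'⟩
    exact ⟨(h χ).1 h2, n, (h1 n).1 hn, hn'⟩
  · rintro ⟨h2, n, hn, hn'⟩
    exact ⟨(h χ).2 h2, n, (h1 n).2 hn, hn'⟩

section lx

variable {G : Type} [Group G] {r : ℕ} [Fact r.Prime]

lemma lx_fwd {s : ℂ ≃+* ℂ} {X : Set (G → ℂ)} (h : ∀ χ ∈ X, ac s χ ∈ X) :
    ∀ χ ∈ LX (r := r) X, ac s χ ∈ LX (r := r) X := by
  rintro χ (⟨f, hf, ⟨ω, ω', hω⟩, rfl⟩ | ⟨θ, hθ, l, rfl⟩)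
  · refine Or.inl ⟨fun ω => ac s (f ω), fun ω => h _ (hf ω), ⟨ω, ω', fun he => hω ?_⟩, ac_nch s f⟩
    funext g
    exact s.injective (congrFun he g)
  · exact Or.inr ⟨ac s θ, h _ hθ, _, ac_cch s θ l⟩

lemma lx_st {s : ℂ ≃+* ℂ} {X : Set (G → ℂ)} (h : St s X) : St s (LX (r := r) X) := by
  have h1 : ∀ χ ∈ X, ac s χ ∈ X := fun χ hχ => (h χ).1 hχ
  have h2 : ∀ χ ∈ X, ac s.symm χ ∈ X := by
    intro χ hχ
    apply (h _).2
    have : (fun g => s (ac s.symm χ g)) = χ := by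
      funext g
      exact s.apply_symm_apply (χ g)
    rw [this]
    exact hχ
  intro χ
  refine ⟨fun hχ => lx_fwd h1 χ hχ, fun hχ => ?_⟩
  have h3 := lx_fwd (r := r) h2 _ hχ
  have : ac s.symm (fun g => s (χ g)) = χ := by
    funext g
    exact s.symm_apply_apply (χ g)
  rw [this] at h3
  exact h3

end lx

lemma agree_pow {s t : ℂ ≃+* ℂ} {n : ℕ} (h : ∀ ζ : ℂ, ζ ^ n = 1 → s ζ = t ζ) (k : ℕ) :
    ∀ ζ : ℂ, ζ ^ n = 1 → (s ^ k) ζ = (t ^ k) ζ := by
  induction k with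
  | zero => intro ζ _; rw [pow_zero, pow_zero]
  | succ k ih =>
      intro ζ hζ
      have h1 : (s ^ (k + 1)) ζ = s ((s ^ k) ζ) := by rw [pow_succ']; rfl
      have h2 : (t ^ (k + 1)) ζ = t ((t ^ k) ζ) := by rw [pow_succ']; rfl
      rw [h1, h2, ih ζ hζ]
      apply h
      rw [← map_pow, hζ, map_one]

lemma fxd_agree (hGV : S_GV) {G : Type} [Group G] [Fintype G] {X : Set (G → ℂ)}
    (hX : ∀ χ ∈ X, IsIrr χ) {s t : ℂ ≃+* ℂ} (h : ∀ ζ : ℂ, ζ ^ Nat.card G = 1 → s ζ = t ζ) :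
    Fxd X s = Fxd X t := by
  ext χ
  constructor
  · rintro ⟨h1, h2⟩
    exact ⟨h1, fun g => (hGV.1 G χ (hX χ h1) s t h g).symm.trans (h2 g)⟩
  · rintro ⟨h1, h2⟩
    exact ⟨h1, fun g => (hGV.1 G χ (hX χ h1) s t h g).trans (h2 g)⟩

lemma irr0_irr {H : Type} [Group H] {O : ValuationSubring ℂ} {B : Set (H → ℂ)} (hB : IsBlock O B)
    (p : ℕ) (D : Subgroup H) : ∀ χ ∈ Irr0 p D B, IsIrr χ := by
  obtain ⟨χ₀, -, hB⟩ := hB
  rintro χ ⟨h, -⟩
  rw [hB] at h
  exact h.1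

/-- the number theoretic step -/
lemma num_step {r j : ℕ} (hj : 1 ≤ j) {L R L' R' L0 R0 c : ℤ}
    (hc : (r : ℤ) ∣ c)
    (hL : (r : ℤ) * L' = L0 ^ r + (r - 1) * L + c * L0)
    (hR : (r : ℤ) * R' = R0 ^ r + (r - 1) * R + c * R0)
    (h0 : (r : ℤ) ^ j ∣ L0 - R0) (h' : (r : ℤ) ^ j ∣ L' - R') : (r : ℤ) ^ (j + 1) ∣ L - R := by
  have h1 := pow_sub_dvd hj h0
  have h2 : (r : ℤ) ^ (j + 1) ∣ (r : ℤ) * (L' - R') := by
    rw [pow_succ']
    exact mul_dvd_mul_left _ h'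
  have h3 : (r : ℤ) ^ (j + 1) ∣ c * (L0 - R0) := by
    rw [pow_succ']
    exact mul_dvd_mul hc h0
  have h4 : (r : ℤ) ^ (j + 1) ∣ ((r : ℤ) - 1) * (L - R) := by
    have e : ((r : ℤ) - 1) * (L - R) = (r : ℤ) * (L' - R') - (L0 ^ r - R0 ^ r) - c * (L0 - R0) := by
      rw [mul_sub (r : ℤ), hL, hR]
      ring
    rw [e]
    exact dvd_sub (dvd_sub h2 h1) h3
  have h5 : IsCoprime ((r : ℤ) ^ (j + 1)) ((r : ℤ) - 1) := by
    refine IsCoprime.pow_left ⟨1, -1, by ring⟩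
  exact h5.dvd_of_dvd_mul_left h4

lemma normBot {G : Type} [Group G] (g : G) : g ∈ NN (⊥ : Subgroup G) := by
  rw [Subgroup.mem_normalizer_iff]
  intro h
  simp only [Subgroup.mem_bot]
  constructor
  · intro hh; rw [hh]; group
  · intro hh
    have : h = g⁻¹ * (g * h * g⁻¹) * g := by group
    rw [this, hh]; group

/-- the group is isomorphic to the normaliser of the trivial subgroup -/
def eBot (G : Type) [Group G] : G ≃* NN (⊥ : Subgroup G) where
  toFun g := ⟨g, normBot g⟩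
  invFun x := x
  left_inv _ := rfl
  right_inv _ := rfl
  map_mul' _ _ := rfl

lemma bot_case (hBOT : S_BOT) {G : Type} [Group G] [Fintype G] {p : ℕ} [Fact p.Prime]
    {O : ValuationSubring ℂ} (hO : (p : ℂ) ∈ O.nonunits) {B : Set (G → ℂ)}
    {b : Set (NN (⊥ : Subgroup G) → ℂ)} (hB : IsBlock O B)
    (hb : IsBrauerCorrespondent p O ⊥ B b) (s : ℂ ≃+* ℂ) :
    (Fxd (Irr0 p (⊥ : Subgroup G) B) s).ncard =
      (Fxd (Irr0 p ((⊥ : Subgroup G).subgroupOf (NN (⊥ : Subgroup G))) b) s).ncard := by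
  have h1 := hBOT G p O hO B b hB hb
  have h2 : b = {θ : NN (⊥ : Subgroup G) → ℂ | (fun x => θ (eBot G x)) ∈ B} := by
    rw [h1]
    ext θ
    constructor
    · rintro ⟨χ, hχ, hθ⟩
      have : (fun x => θ (eBot G x)) = χ := by
        funext x
        exact hθ (eBot G x)
      show (fun x => θ (eBot G x)) ∈ B
      rw [this]
      exact hχ
    · intro h
      exact ⟨_, h, fun x => rfl⟩
  rw [h2]
  exact (fxd_tr p (eBot G) _ ⊥ (fun x => by
    rw [Subgroup.mem_subgroupOf]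
    rfl) B s).symm

theorem t_AMR : S_CLS → S_NUM → S_BLK → S_POS → S_BOT → S_TRN → S_COR → S_IZ → S_GV → S_AMR := by
  intro _ hNUM hBLK hPOS hBOT hTRN hCOR hIZ hGV p r _ hrF hpr O hO S hS H1
  have hr := hrF.out
  suffices hall : ∀ j : ℕ, 1 ≤ j → ∀ (G : Type) [Group G] [Fintype G] (B : Set (G → ℂ))
      (D : Subgroup G) (b : Set (NN D → ℂ)), Dt p O B D b → ∀ s ∈ S, St s B → St s b →
      Rp s r (Nat.card G) → (r : ℤ) ^ j ∣ ((Fxd (Irr0 p D B) s).ncard : ℤ) -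
        ((Fxd (Irr0 p (D.subgroupOf (NN D)) b) s).ncard : ℤ) by
    intro G _ _ B D b hDt s hs h1 h2 h3
    have h4 := zero_of_dvd hr.two_le fun j hj => hall j hj G B D b hDt s hs h1 h2 h3
    have h5 : ((Fxd (Irr0 p D B) s).ncard : ℤ) =
      ((Fxd (Irr0 p (D.subgroupOf (NN D)) b) s).ncard : ℤ) := by linarith
    exact_mod_cast h5
  intro j hj
  induction j, hj using Nat.le_induction with
  | base =>
      intro G _ _ B D b hDt s hs h1 h2 h3
      rw [pow_one]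
      exact H1 G B D b hDt s hs h1 h2 h3
  | succ j hj IH =>
      intro G _ _ B D b hDt s hs hsB hsb hRp
      obtain ⟨hB, hD, hb⟩ := hDt
      by_cases hbot : D = ⊥
      · subst hbot
        rw [bot_case hBOT hO hB hb s, sub_self]
        exact dvd_zero _
      -- the main case
      have hposB : Pos O B := hPOS G p O hO B hB D hD hbot
      have hDN : D.subgroupOf (NN D) ≠ ⊥ := by
        rw [Ne, Subgroup.subgroupOf_eq_bot]
        intro hdis
        exact hbot (hdis le_rfl Subgroup.le_normalizer |> le_bot_iff.1)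
      have hposb : Pos O b := hPOS (NN D) p O hO b hb.1 _ hb.2.1 hDN
      have hn : 0 < Nat.card G := Nat.card_pos
      obtain ⟨v, hv⟩ := hGV.2.2 s r (Nat.card G) hn hRp
      have hRp0 : Rp (s ^ v) r (Nat.card G) := by
        obtain ⟨i, hi, hi'⟩ := hRp
        refine ⟨i, hi, fun ζ hζ => ?_⟩
        rw [← pow_mul, mul_comm]
        exact tr_mul hi' v ζ hζ
      have hfin : Finite (Wc G r) := Finite.of_equiv _ SemidirectProduct.equivProd.symm
      let _ : Fintype (Wc G r) := Fintype.ofFinite _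
      have hN : 0 < Nat.card (Wc G r) := Nat.card_pos
      have hcyc : Nat.card (Cy r) = r := by
        rw [Nat.card_congr (Multiplicative.toAdd : Cy r ≃ ZMod r), Nat.card_zmod]
      have hdvd : Nat.card G ∣ Nat.card (Wc G r) := by
        rw [SemidirectProduct.card, Nat.card_fun, hcyc]
        exact (dvd_pow_self _ hr.ne_zero).mul_right _
      obtain ⟨u, hu, hRp1⟩ := hGV.2.1 (s ^ v) r (Nat.card G) (Nat.card (Wc G r)) hN hdvd hRp0
      obtain ⟨t, ht⟩ : ∃ t, t = (s ^ v) ^ u := ⟨_, rfl⟩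
      rw [← ht] at hu hRp1
      have htS : t ∈ S := by rw [ht]; exact hS _ (hS s hs v) u
      have htB : St t B := by rw [ht, ← pow_mul]; exact st_pow hsB _
      have htb : St t b := by rw [ht, ← pow_mul]; exact st_pow hsb _
      have htr : ∀ ζ : ℂ, ζ ^ Nat.card G = 1 → (t ^ r) ζ = s ζ := by
        intro ζ hζ
        rw [agree_pow hu r ζ hζ]
        exact hv ζ hζ
      have hRpt : Rp t r (Nat.card G) := by
        obtain ⟨i, hi, hi'⟩ := hRp1
        refine ⟨i, hi, fun ζ hζ => hi' ζ ?_⟩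
        obtain ⟨c, hc⟩ := hdvd
        rw [hc, pow_mul, hζ, one_pow]
      obtain ⟨e, he1, he2⟩ := hTRN G r D
      obtain ⟨hBL, -, hBD⟩ := hBLK G p r hpr O hO B hB hposB
      have hcor := hCOR G p r hpr O hO B D b hB hposB hposb hD hb e he1 he2
      have hst' : St t {θ : NN (Dw r D) → ℂ | (fun x => θ (e x)) ∈ LX (r := r) b} := by
        intro θ
        exact lx_st htb (fun x => θ (e x))
      have I1 := IH (Wc G r) (LX (r := r) B) (Dw r D) _ ⟨hBL, hBD D hD, hcor⟩ t htS (lx_st htB) hst' hRp1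
      have I0 := IH G B D b ⟨hB, hD, hb⟩ t htS htB htb hRpt
      -- rewrite the left side
      rw [hIZ G p r hpr O hO B D hB hD] at I1
      -- rewrite the right side
      have hDw : ∀ x : Wc (NN D) r, x ∈ Dw r (D.subgroupOf (NN D)) ↔
          e x ∈ (Dw r D).subgroupOf (NN (Dw r D)) := by
        intro x
        rw [Subgroup.mem_subgroupOf]
        show (x.right = 1 ∧ ∀ ω, x.left ω ∈ D.subgroupOf (NN D)) ↔
          ((e x : Wc G r).right = 1 ∧ ∀ ω, (e x : Wc G r).left ω ∈ D)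
        rw [he1]
        refine and_congr_right fun _ => forall_congr' fun ω => ?_
        rw [he2, Subgroup.mem_subgroupOf]
      rw [fxd_tr p e _ _ hDw (LX (r := r) b) t, hIZ (NN D) p r hpr O hO b _ hb.1 hb.2.1] at I1
      have N1 := hNUM G r (Irr0 p D B) (irr0_irr hB p D) t (irr0_st htB p D)
      have N2 := hNUM (NN D) r (Irr0 p (D.subgroupOf (NN D)) b) (irr0_irr hb.1 p _) t
        (irr0_st htb p _)
      rw [fxd_agree hGV (irr0_irr hB p D) htr] at N1
      rw [fxd_agree hGV (irr0_irr hb.1 p _) (fun ζ hζ => htr ζ (by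
        obtain ⟨c, hc⟩ := Subgroup.card_subgroup_dvd_card (NN D)
        rw [hc, pow_mul, hζ, one_pow]))] at N2
      obtain ⟨c, hc⟩ : ∃ c : ℤ, c = if ∀ ζ : ℂ, ζ ^ r = 1 → t ζ = ζ then (r : ℤ) * (r - 1) else 0 :=
        ⟨_, rfl⟩
      have hcr : (r : ℤ) ∣ c := by
        rw [hc]
        split_ifs
        · exact dvd_mul_right _ _
        · exact dvd_zero _
      have hc2 : ∀ y : ℤ, (if ∀ ζ : ℂ, ζ ^ r = 1 → t ζ = ζ then (r : ℤ) * (r - 1) * y else 0) =
          c * y := by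
        intro y
        rw [hc]
        split_ifs
        · rfl
        · rw [zero_mul]
      rw [hc2] at N1 N2
      exact num_step hj hcr N1 N2 I0 I1

end Pool.Agent.Q137.AM
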