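import Pool.Agent.Q17.AM.Stm4
import Pool.Agent.Q17.TP.Fin
import Pool.Agent.Q277.TC.Rl

/-! Project AM of helper17, job GV. -/

set_option autoImplicit false

open scoped Classical

noncomputable section

namespace Pool.Agent.Q137.AM

open Pool.Agent.H254R3.IN
open Pool.Agent.Q17.AM

/-- the power `k` is trivial on the `n`-th roots of unity -/
def Tr (s : ℂ ≃+* ℂ) (n k : ℕ) : Prop := ∀ ζ : ℂ, ζ ^ n = 1 → (s ^ k) ζ = ζ

lemma pw (s : ℂ ≃+* ℂ) (a b : ℕ) (z : ℂ) : (s ^ (a + b)) z = (s ^ a) ((s ^ b) z) := by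
  rw [pow_add]; rfl

lemma tr_mul {s : ℂ ≃+* ℂ} {n k : ℕ} (h : Tr s n k) (t : ℕ) : Tr s n (k * t) := by
  induction t with
  | zero => intro ζ _; rw [Nat.mul_zero, pow_zero]; rfl
  | succ t ih =>
      intro ζ hζ
      rw [Nat.mul_succ, pw, h ζ hζ, ih ζ hζ]

lemma tr_modEq {s : ℂ ≃+* ℂ} {n k : ℕ} (h : Tr s n k) {u v : ℕ} (huv : u ≡ v [MOD k]) {ζ : ℂ}
    (hζ : ζ ^ n = 1) : (s ^ u) ζ = (s ^ v) ζ := by
  wlog hle : v ≤ u generalizing u v
  · exact (this huv.symm (by omega)).symm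
  obtain ⟨t, ht⟩ := (Nat.modEq_iff_dvd' hle).1 huv.symm
  have e : u = v + k * t := by omega
  rw [e, pw, tr_mul h t ζ hζ]

lemma exists_order (s : ℂ ≃+* ℂ) (N : ℕ) (hN : 0 < N) : ∃ K : ℕ, 0 < K ∧ Tr s N K := by
  have : NeZero N := ⟨hN.ne'⟩
  obtain ⟨z, hz⟩ : ∃ z : ℂ, IsPrimitiveRoot z N := ⟨_, Complex.isPrimitiveRoot_exp N hN.ne'⟩
  have h1 : ∀ i : ℕ, ∃ m : Fin N, z ^ (m : ℕ) = (s ^ i) z := by
    intro i
    have h2 : ((s ^ i) z) ^ N = 1 := by rw [← map_pow, hz.pow_eq_one, map_one]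
    obtain ⟨m, hm, hm'⟩ := hz.eq_pow_of_pow_eq_one h2
    exact ⟨⟨m, hm⟩, hm'⟩
  choose f hf using h1
  obtain ⟨i, j, hij, he⟩ := Finite.exists_ne_map_eq_of_infinite f
  wlog hlt : i < j generalizing i j
  · exact this j i (Ne.symm hij) he.symm (by omega)
  refine ⟨j - i, by omega, fun ζ hζ => ?_⟩
  obtain ⟨k, -, rfl⟩ := hz.eq_pow_of_pow_eq_one hζ
  rw [map_pow]
  congr 1
  have h3 : (s ^ i) z = (s ^ j) z := by rw [← hf i, ← hf j, he]
  have h4 : (s ^ j) z = (s ^ i) ((s ^ (j - i)) z) := by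
    rw [← pw]
    congr 2
    omega
  rw [h4] at h3
  exact ((s ^ i).injective h3).symm

theorem t_GV : S_GV := by
  refine ⟨?_, ?_, ?_⟩
  · intro G _ _ χ hχ s t hst g
    obtain ⟨m, hm⟩ := Pool.Agent.Q17.TP.exp_of s (Nat.card G) Nat.card_pos
    have hg : g ^ Nat.card G = 1 := pow_card_eq_one'
    rw [Pool.Agent.Q17.TC.gal_char hm hχ hg,
      Pool.Agent.Q17.TC.gal_char (fun z hz => (hst z hz).symm.trans (hm z hz)) hχ hg]
  · intro s r n N hr hN hnN hRp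
    obtain ⟨j, hj, hj'⟩ := hRp
    obtain ⟨K, hK, hK'⟩ := exists_order s N hN
    obtain ⟨a, K', hK'r, hKe⟩ := Nat.exists_eq_pow_mul_and_not_dvd hK.ne' r hr.out.ne_one
    have hcop : Nat.Coprime (r ^ a) K' :=
      Nat.Coprime.pow_left a ((Nat.Prime.coprime_iff_not_dvd hr.out).2 hK'r)
    have hcj : Nat.Coprime (r ^ a) j := Nat.Coprime.pow_left a hj.symm
    have hKn : Tr s n K := by
      intro ζ hζ
      apply hK'
      obtain ⟨c, rfl⟩ := hnN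
      rw [pow_mul, hζ, one_pow]
    -- the order on the `n`-th roots divides `K'`
    obtain ⟨z, hz1, hz2⟩ := Nat.chineseRemainder hcj 1 0
    have hK'n : Tr s n K' := by
      intro ζ hζ
      obtain ⟨c, hc⟩ := (Nat.modEq_zero_iff_dvd).1 hz2
      have h1 : (s ^ (K' * z)) ζ = ζ := by
        rw [hc, show K' * (j * c) = j * (K' * c) by ring]
        exact tr_mul hj' (K' * c) ζ hζ
      have h2 : K' * z ≡ K' [MOD K] := by
        have := Nat.ModEq.mul_left' K' hz1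
        rw [mul_one] at this
        rw [hKe, mul_comm (r ^ a) K']
        exact this
      rw [← tr_modEq hKn h2 hζ, h1]
    obtain ⟨u, hu1, hu2⟩ := Nat.chineseRemainder hcop 0 1
    refine ⟨u, fun ζ hζ => ?_, K', ?_, ?_⟩
    · rw [tr_modEq hK'n hu2 hζ, pow_one]
    · exact Nat.Coprime.symm ((Nat.Prime.coprime_iff_not_dvd hr.out).2 hK'r)
    · intro ζ hζ
      obtain ⟨c, hc⟩ := (Nat.modEq_zero_iff_dvd).1 hu1
      rw [← pow_mul, hc, show r ^ a * c * K' = (r ^ a * K') * c by ring, ← hKe]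
      exact tr_mul hK' c ζ hζ
  · intro s r n hr hn hRp
    obtain ⟨j, hj, hj'⟩ := hRp
    obtain ⟨u, hu1, hu2⟩ := Nat.chineseRemainder hj.symm 0 1
    obtain ⟨v, hv⟩ := (Nat.modEq_zero_iff_dvd).1 hu1
    refine ⟨v, fun ζ hζ => ?_⟩
    rw [← pow_mul, mul_comm v r, ← hv]
    rw [tr_modEq hj' hu2 hζ, pow_one]

end Pool.Agent.Q137.AM
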